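import Pool.Agent.N520.RO.Stm

/-!
Project RO (helper520), CE (helper701): common eigenvectors of almost unipotent families with
trivial long commutators.
-/

set_option autoImplicit false

namespace Pool.Agent.N701.RO

open Pool.Agent.N520.RO

/-- a complex number all of whose powers are near one is one -/
theorem eq_one_of_pow {η : ℂ} (h : ∀ j : ℕ, ‖η ^ j - 1‖ ≤ 2 / 7) : η = 1 := by
  have h1 : ∀ n : ℕ, (3 / 2 : ℝ) ^ n * ‖η - 1‖ ≤ ‖η ^ 2 ^ n - 1‖ := by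
    intro n
    induction n with
    | zero => simp
    | succ n ih =>
      have h2 : η ^ 2 ^ (n + 1) - 1 = (η ^ 2 ^ n - 1) * (η ^ 2 ^ n + 1) := by
        rw [pow_succ 2 n, pow_mul]
        ring
      have h3 : 3 / 2 ≤ ‖η ^ 2 ^ n + 1‖ := by
        have h4 : (2 : ℂ) = (η ^ 2 ^ n + 1) - (η ^ 2 ^ n - 1) := by ring
        have h5 : ‖(2 : ℂ)‖ ≤ ‖η ^ 2 ^ n + 1‖ + ‖η ^ 2 ^ n - 1‖ := by
          rw [h4]
          exact norm_sub_le _ _
        have h6 : ‖(2 : ℂ)‖ = 2 := by norm_num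
        have h7 := h (2 ^ n)
        linarith
      rw [h2, norm_mul, pow_succ]
      calc (3 / 2 : ℝ) ^ n * (3 / 2) * ‖η - 1‖ = ((3 / 2 : ℝ) ^ n * ‖η - 1‖) * (3 / 2) := by ring
        _ ≤ ‖η ^ 2 ^ n - 1‖ * ‖η ^ 2 ^ n + 1‖ :=
          mul_le_mul ih h3 (by norm_num) (norm_nonneg _)
  by_contra hne
  have h2 : 0 < ‖η - 1‖ := norm_pos_iff.2 (sub_ne_zero.2 hne)
  obtain ⟨n, hn⟩ := pow_unbounded_of_one_lt (2 / 7 / ‖η - 1‖) (by norm_num : (1 : ℝ) < 3 / 2)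
  rw [div_lt_iff₀ h2] at hn
  exact absurd ((h1 n).trans (h _)) (not_le.2 hn)

section
variable {W : Type} [AddCommGroup W] [Module ℂ W] {Λ : Type} [Group Λ] (ρ : Λ →* (W ≃ₗ[ℂ] W))

theorem rho_mul (x y : Λ) (u : W) : ρ (x * y) u = ρ x (ρ y u) := by
  rw [map_mul]
  rfl

theorem rho_inv_left (x : Λ) (u : W) : ρ x⁻¹ (ρ x u) = u := by
  rw [← rho_mul, inv_mul_cancel, map_one]
  rfl

theorem rho_inv_right (x : Λ) (u : W) : ρ x (ρ x⁻¹ u) = u := by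
  rw [← rho_mul, mul_inv_cancel, map_one]
  rfl

theorem st_mul {U : Submodule ℂ W} {x y : Λ} (hx : ∀ u, ρ x u ∈ U ↔ u ∈ U)
    (hy : ∀ u, ρ y u ∈ U ↔ u ∈ U) : ∀ u, ρ (x * y) u ∈ U ↔ u ∈ U := by
  intro u
  rw [rho_mul, hx, hy]

theorem st_inv {U : Submodule ℂ W} {x : Λ} (hx : ∀ u, ρ x u ∈ U ↔ u ∈ U) :
    ∀ u, ρ x⁻¹ u ∈ U ↔ u ∈ U := by
  intro u
  rw [← hx, rho_inv_right]

theorem st_Cm {U : Submodule ℂ W} {F : Set Λ} (hF : ∀ x ∈ F, ∀ u, ρ x u ∈ U ↔ u ∈ U) :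
    ∀ k, ∀ x ∈ Cm F k, ∀ u, ρ x u ∈ U ↔ u ∈ U := by
  intro k
  induction k with
  | zero => exact hF
  | succ k ih =>
    rintro _ ⟨x, hx, y, hy, rfl⟩
    exact st_mul ρ (st_mul ρ (st_mul ρ (ih x hx) (hF y hy)) (st_inv ρ (ih x hx)))
      (st_inv ρ (hF y hy))

/-- the elements almost commute with a factor, then they commute -/
theorem comm_of {U : Submodule ℂ W} [FiniteDimensional ℂ W] (hU : U ≠ ⊥) {z f : Λ}
    (hz : ∀ u, ρ z u ∈ U ↔ u ∈ U) (hf : ∀ u, ρ f u ∈ U ↔ u ∈ U)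
    (he : ∀ (μ : ℂ) (w : W), w ≠ 0 → ρ f w = μ • w → ‖μ - 1‖ ≤ 1 / 8)
    (hs : ∃ ζ : ℂ, ∀ u ∈ U, ρ (z * f * z⁻¹ * f⁻¹) u = ζ • u) :
    ∀ u ∈ U, ρ z (ρ f u) = ρ f (ρ z u) := by
  obtain ⟨ζ, hζ⟩ := hs
  have h1 : ∀ u ∈ U, ρ z (ρ f u) = ζ • ρ f (ρ z u) := by
    intro u hu
    have h2 := hζ (ρ f (ρ z u)) ((hf _).2 ((hz _).2 hu))
    rwa [rho_mul, rho_mul, rho_mul, rho_inv_left, rho_inv_left] at h2
  obtain ⟨w0, hw0, hw0'⟩ := Submodule.exists_mem_ne_zero_of_ne_bot hU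
  have hζ0 : ζ ≠ 0 := by
    intro h2
    have h3 := h1 w0 hw0
    rw [h2, zero_smul, LinearEquiv.map_eq_zero_iff, LinearEquiv.map_eq_zero_iff] at h3
    exact hw0' h3
  -- an eigenvector of `f` in `U`
  obtain ⟨l, w, hw, hwne, hfw⟩ : ∃ (l : ℂ) (w : W), w ∈ U ∧ w ≠ 0 ∧ ρ f w = l • w := by
    have : Nontrivial U := Submodule.nontrivial_iff_ne_bot.2 hU
    obtain ⟨l, hl⟩ := Module.End.exists_eigenvalue
      ((ρ f).toLinearMap.restrict (p := U) (q := U) fun u hu => (hf u).2 hu)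
    obtain ⟨w, hw⟩ := hl.exists_hasEigenvector
    refine ⟨l, w, w.2, fun h => hw.2 (Subtype.ext h), ?_⟩
    exact congrArg Subtype.val hw.apply_eq_smul
  have h3 : ∀ j : ℕ, ∃ w' ∈ U, w' ≠ 0 ∧ ρ f w' = ((ζ⁻¹) ^ j * l) • w' := by
    intro j
    induction j with
    | zero => exact ⟨w, hw, hwne, by rw [pow_zero, one_mul]; exact hfw⟩
    | succ j ih =>
      obtain ⟨w', hw', hne, h4⟩ := ih
      refine ⟨ρ z w', (hz _).2 hw', fun h => hne ((LinearEquiv.map_eq_zero_iff _).1 h), ?_⟩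
      have h5 := h1 w' hw'
      rw [h4, map_smul] at h5
      have h6 : ρ f (ρ z w') = ζ⁻¹ • (ζ • ρ f (ρ z w')) := by
        rw [smul_smul, inv_mul_cancel₀ hζ0, one_smul]
      rw [h6, ← h5, smul_smul, pow_succ]
      congr 1
      ring
  have h4 : ∀ j : ℕ, ‖(ζ⁻¹) ^ j * l - 1‖ ≤ 1 / 8 := by
    intro j
    obtain ⟨w', _, hne, h5⟩ := h3 j
    exact he _ w' hne h5
  have h5 : ‖l - 1‖ ≤ 1 / 8 := by
    have := h4 0
    rwa [pow_zero, one_mul] at this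
  have h6 : 7 / 8 ≤ ‖l‖ := by
    have h7 : ‖(1 : ℂ)‖ ≤ ‖l‖ + ‖l - 1‖ := by
      have h8 : (1 : ℂ) = l - (l - 1) := by ring
      calc ‖(1 : ℂ)‖ = ‖l - (l - 1)‖ := by rw [← h8]
        _ ≤ _ := norm_sub_le _ _
    rw [norm_one] at h7
    linarith
  have h7 : ζ⁻¹ = 1 := by
    refine eq_one_of_pow fun j => ?_
    have h8 : ‖(ζ⁻¹) ^ j - 1‖ * ‖l‖ ≤ 1 / 4 := by
      rw [← norm_mul]
      have h9 : ((ζ⁻¹) ^ j - 1) * l = ((ζ⁻¹) ^ j * l - 1) - (l - 1) := by ring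
      rw [h9]
      refine (norm_sub_le _ _).trans ?_
      have := h4 j
      linarith
    have h10 := mul_le_mul_of_nonneg_left h6 (norm_nonneg ((ζ⁻¹) ^ j - 1))
    linarith
  have h8 : ζ = 1 := by rw [← inv_inv ζ, h7, inv_one]
  intro u hu
  rw [h1 u hu, h8, one_smul]

end

theorem ce_aux {W : Type} [AddCommGroup W] [Module ℂ W] [FiniteDimensional ℂ W]
    {Λ : Type} [Group Λ] (ρ : Λ →* (W ≃ₗ[ℂ] W)) (F : Set Λ)
    (hk : ∃ k, ∀ x ∈ Cm F k, ρ x = 1)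
    (he : ∀ x ∈ F, ∀ (μ : ℂ) (w : W), w ≠ 0 → ρ x w = μ • w → ‖μ - 1‖ ≤ 1 / 8) :
    ∀ (n : ℕ) (U : Submodule ℂ W), Module.finrank ℂ U ≤ n → U ≠ ⊥ →
      (∀ x ∈ F, ∀ u, ρ x u ∈ U ↔ u ∈ U) →
      ∃ v ∈ U, v ≠ 0 ∧ ∀ x ∈ F, ∃ μ : ℂ, ρ x v = μ • v := by
  classical
  intro n
  induction n with
  | zero =>
    intro U hn hU _
    exact absurd (Submodule.finrank_eq_zero.1 (Nat.le_zero.1 hn)) hU
  | succ n ih =>
    intro U hn hU hF
    by_cases h0 : ∀ x ∈ F, ∃ μ : ℂ, ∀ u ∈ U, ρ x u = μ • u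
    · obtain ⟨v, hv, hv0⟩ := Submodule.exists_mem_ne_zero_of_ne_bot hU
      refine ⟨v, hv, hv0, fun x hx => ?_⟩
      obtain ⟨μ, hμ⟩ := h0 x hx
      exact ⟨μ, hμ v hv⟩
    · have hQ : ∃ j, ∀ x ∈ Cm F j, ∃ μ : ℂ, ∀ u ∈ U, ρ x u = μ • u := by
        obtain ⟨k, hk⟩ := hk
        refine ⟨k, fun x hx => ⟨1, fun u _ => ?_⟩⟩
        rw [hk x hx, one_smul]
        rfl
      obtain ⟨i, hi⟩ : ∃ i, Nat.find hQ = i + 1 := by
        refine Nat.exists_eq_succ_of_ne_zero fun h => ?_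
        have h1 := Nat.find_spec hQ
        rw [h] at h1
        exact h0 h1
      have h1 := Nat.find_spec hQ
      rw [hi] at h1
      have h2 : ¬ ∀ x ∈ Cm F i, ∃ μ : ℂ, ∀ u ∈ U, ρ x u = μ • u := Nat.find_min hQ (by omega)
      push Not at h2
      obtain ⟨z, hz, hns⟩ := h2
      have hzU := st_Cm ρ hF i z hz
      have hcomm : ∀ f ∈ F, ∀ u ∈ U, ρ z (ρ f u) = ρ f (ρ z u) := fun f hf =>
        comm_of ρ hU hzU (hF f hf) (he f hf) (h1 _ ⟨z, hz, f, hf, rfl⟩)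
      have : Nontrivial U := Submodule.nontrivial_iff_ne_bot.2 hU
      obtain ⟨l, hl⟩ := Module.End.exists_eigenvalue
        ((ρ z).toLinearMap.restrict (p := U) (q := U) fun u hu => (hzU u).2 hu)
      obtain ⟨w, hw⟩ := hl.exists_hasEigenvector
      have hw1 : ρ z w = l • (w : W) := congrArg Subtype.val hw.apply_eq_smul
      -- the eigenspace
      let U' : Submodule ℂ W := U ⊓ LinearMap.ker ((ρ z).toLinearMap - l • LinearMap.id)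
      have hU' : ∀ u, u ∈ U' ↔ u ∈ U ∧ ρ z u = l • u := by
        intro u
        rw [Submodule.mem_inf, LinearMap.mem_ker, LinearMap.sub_apply, sub_eq_zero]
        rfl
      have hne : U' ≠ ⊥ := by
        rw [Submodule.ne_bot_iff]
        exact ⟨w, (hU' _).2 ⟨w.2, hw1⟩, fun h => hw.2 (Subtype.ext h)⟩
      have hlt : U' < U := by
        refine lt_of_le_of_ne inf_le_left fun h => ?_
        obtain ⟨u, hu, hu2⟩ := hns l
        rw [← h] at hu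
        exact hu2 ((hU' u).1 hu).2
      have hfin := Submodule.finrank_lt_finrank_of_lt hlt
      obtain ⟨v, hv, hv0, hv1⟩ := ih U' (by omega) hne (fun f hf u => by
        rw [hU', hU', hF f hf u]
        refine and_congr_right fun hu => ?_
        rw [hcomm f hf u hu, ← map_smul]
        exact (ρ f).injective.eq_iff)
      exact ⟨v, ((hU' v).1 hv).1, hv0, hv1⟩

/-- CE: common eigenvectors. -/
theorem t_ce : S_CE := by
  intro W _ _ _ _ Λ _ ρ F hk he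
  obtain ⟨v, -, hv0, hv⟩ := ce_aux ρ F hk he (Module.finrank ℂ (⊤ : Submodule ℂ W)) ⊤ le_rfl
    top_ne_bot (fun x _ u => ⟨fun _ => trivial, fun _ => trivial⟩)
  exact ⟨v, hv0, hv⟩

end Pool.Agent.N701.RO
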